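import Mathlib

set_option autoImplicit false

namespace Pool.Agent.Results.MP_ca6fba_co.Full

/-- `Wins E k U C`: with `k` rounds left, unclaimed set `U` and Client's set `C`, Waiter can force
that at the end Client (who also gets the at most one leftover vertex) owns no edge. -/
def Wins {V : Type} [DecidableEq V] (E : Set (Finset V)) : ℕ → Finset V → Finset V → Prop
  | 0, U, C => ∀ e ∈ E, ¬ e ⊆ C ∪ U
  | k + 1, U, C => ∃ a ∈ U, ∃ b ∈ U, a ≠ b ∧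
      Wins E k (U \ {a, b}) (insert a C) ∧ Wins E k (U \ {a, b}) (insert b C)

/-- Waiter wins the Client-Waiter game, which has `⌊|V|/2⌋` rounds. -/
def WaiterWins {V : Type} [Fintype V] [DecidableEq V] (E : Set (Finset V)) : Prop :=
  Wins E (Fintype.card V / 2) Finset.univ ∅

def TwoColourable {V : Type} (E : Set (Finset V)) : Prop :=
  ∃ c : V → Fin 2, ∀ e ∈ E, ¬ ∃ k, ∀ v ∈ e, c v = k

def L : List (List (Fin 8)) :=
  [[0, 1, 2, 3], [0, 1, 5], [0, 2, 4], [0, 3, 7], [0, 4, 5, 6], [1, 2, 4], [1, 2, 5], [1, 2, 6],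
    [1, 3, 4], [1, 4, 5, 7], [2, 3, 5], [2, 4, 5, 7], [3, 4, 5, 6]]

def H : Set (Finset (Fin 8)) := {e | ∃ l ∈ L, l.toFinset = e}

lemma fin {U C : Finset (Fin 8)} (h : ∀ l ∈ L, ¬ ∀ x ∈ l, x ∈ C ∪ U) : Wins H 0 U C := by
  rintro _ ⟨l, a, rfl⟩ b
  exact h l a fun x hx => b (List.mem_toFinset.2 hx)

lemma step {k : ℕ} {U C : Finset (Fin 8)} (a b : Fin 8) (h : a ∈ U ∧ b ∈ U ∧ a ≠ b)
    (h1 : Wins H k (U \ {a, b}) (insert a C)) (h2 : Wins H k (U \ {a, b}) (insert b C)) :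
    Wins H (k + 1) U C := ⟨a, h.1, b, h.2.1, h.2.2, h1, h2⟩

theorem result : ∃ E : Set (Finset (Fin 8)), (∀ e ∈ E, 3 ≤ e.card) ∧ WaiterWins E ∧
    ¬ TwoColourable E := by
  refine ⟨H, ?_, ?_, fun ⟨c, h⟩ => ?_⟩
  · rintro _ ⟨l, a, rfl⟩
    revert l
    decide +kernel
  · show Wins H 4 _ _
    refine step 6 7 ?_
      (step 1 2 ?_ (step 0 5 ?_ (step 3 4 ?_ ?_ ?_) (step 3 4 ?_ ?_ ?_))
        (step 0 4 ?_ (step 3 5 ?_ ?_ ?_) (step 3 5 ?_ ?_ ?_)))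
      (step 0 3 ?_ (step 1 5 ?_ (step 2 4 ?_ ?_ ?_) (step 2 4 ?_ ?_ ?_))
        (step 1 4 ?_ (step 2 5 ?_ ?_ ?_) (step 2 5 ?_ ?_ ?_))) <;>
      (try apply fin) <;> simp only [Finset.mem_union, Finset.mem_sdiff,
        Finset.mem_insert, Finset.mem_singleton, Finset.mem_univ, Finset.notMem_empty] <;>
      decide +kernel
  · have : ∀ a b d e f g i j : Fin 2,
        ∃ s ∈ L, ∃ k, ∀ v ∈ s, ![a, b, d, e, f, g, i, j] v = k := by decide +kernel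
    obtain ⟨l, a, k, b⟩ := this (c 0) (c 1) (c 2) (c 3) (c 4) (c 5) (c 6) (c 7)
    refine h _ ⟨l, a, rfl⟩ ⟨k, fun v hv => ?_⟩
    rw [← b v (List.mem_toFinset.1 hv)]
    fin_cases v <;> rfl

end Pool.Agent.Results.MP_ca6fba_co.Full
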